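import Mathlib
import Pool.Agent.H547Z.MAP.Linf

set_option autoImplicit false

namespace Pool.Agent.Results.MP_e8a68b_an.ALinfRenormingFailsMAP

open Pool.Agent.Helper234.L1MAP

/-- There is an equivalent norm on `ℓ^∞` without the metric approximation property, both for real
and for complex scalars. -/
theorem result : RenormFailsMAP ℝ (lp (fun _ : ℕ => ℝ) ⊤) ∧
    RenormFailsMAP ℂ (lp (fun _ : ℕ => ℂ) ⊤) :=
  Pool.Agent.H547Z.MAP.linf_final

end Pool.Agent.Results.MP_e8a68b_an.ALinfRenormingFailsMAP
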